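import Pool.Agent.Q67.AXI.Defs
import Pool.Agent.W583.MD.EN

/-! Project AXI, part 28: dissipation of `WW` in small balls. -/

set_option autoImplicit false

open MeasureTheory Set Metric Filter Topology
open scoped ContDiff
open H459R3.NS Pool.Agent.W268.NS Pool.Agent.Q67.VD

namespace Pool.Agent.Q111.AXI

open Pool.Agent.Q85.CC Pool.Agent.Q85.CL Pool.Agent.TH305.AX Pool.Agent.Q67.AXI
open Pool.Agent.W583.MD (sm_pd pd_mul')

theorem int_le {f g : V → ℝ} (h : ∀ x, f x ≤ g x) (h0 : ∀ x, 0 ≤ g x) (hg : Integrable g) :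
    ∫ x, f x ≤ ∫ x, g x := by
  by_cases hf : Integrable f
  · exact integral_mono hf hg h
  · rw [integral_undef hf]
    exact integral_nonneg h0

theorem vol_ball (x : V) {a : ℝ} (ha : 0 ≤ a) : volume.real (closedBall x a) = 8 * a ^ 3 := by
  rw [measureReal_def, Real.volume_pi_closedBall x ha, ENNReal.toReal_ofReal (by positivity),
    Fintype.card_fin]
  ring

theorem pd_congr {f g : V → ℝ} {x : V} (h : f =ᶠ[𝓝 x] g) (j : Fin 3) : pd j f x = pd j g x := by
  unfold pd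
  rw [h.fderiv_eq]

theorem pd_zero_of {f : V → ℝ} {x : V} (h : ∀ᶠ y in 𝓝 x, f y = 0) (j : Fin 3) :
    pd j f x = 0 := by
  rw [pd_congr (g := fun _ => (0 : ℝ)) h j]
  unfold pd
  simp

theorem sq_pd {f : V → ℝ} (hf : ContDiff ℝ ∞ f) (j : Fin 3) (x : V) :
    pd j (fun y => f y ^ 2) x = 2 * f x * pd j f x := by
  have h : (fun y => f y ^ 2) = fun y => f y * f y := by
    funext y
    ring
  rw [h, pd_mul' hf hf]
  ring

theorem sm_slice {T : ℝ} {u : ℝ → V → V}
    (hu : ContDiffOn ℝ ∞ (fun z : ℝ × V => u z.1 z.2) (Ioo 0 T ×ˢ univ)) {t : ℝ}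
    (ht : t ∈ Ioo 0 T) : ContDiff ℝ ∞ (u t) :=
  contDiffOn_univ.1 (hu.comp (contDiff_const.prodMk contDiff_id).contDiffOn
    (fun x _ => ⟨ht, mem_univ _⟩))

theorem gr2_cont {f : V → ℝ} (hf : ContDiff ℝ ∞ f) : Continuous (gr2 f) := by
  unfold gr2
  exact continuous_finsetSum _ fun i _ => (sm_pd hf i).continuous.pow 2

theorem gr2_nonneg (f : V → ℝ) (x : V) : 0 ≤ gr2 f x := Finset.sum_nonneg fun i _ => sq_nonneg _

theorem ev_zero {f : V → ℝ} {x : V} (h : x ∉ tsupport f) : ∀ᶠ y in 𝓝 x, f y = 0 := by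
  filter_upwards [(isClosed_tsupport f).isOpen_compl.mem_nhds h] with y hy
  exact image_eq_zero_of_notMem_tsupport hy

theorem gr2_int {f : V → ℝ} (hf : ContDiff ℝ ∞ f) (hs : HasCompactSupport f) :
    Integrable (gr2 f) := by
  refine (gr2_cont hf).integrable_of_hasCompactSupport
    (HasCompactSupport.of_support_subset_isCompact hs fun x hx => ?_)
  by_contra hcon
  apply hx
  unfold gr2
  refine Finset.sum_eq_zero fun i _ => ?_
  rw [pd_zero_of (ev_zero hcon) i]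
  ring

/-- a cut-off function at the point `x` with the scale `r` -/
structure Cf (K : ℝ) (x : V) (r : ℝ) (ψ : V → ℝ) : Prop where
  sm : ContDiff ℝ ∞ ψ
  rg : ∀ y, 0 ≤ ψ y ∧ ψ y ≤ 1
  one : ∀ y ∈ closedBall x r, ψ y = 1
  sp : ∀ y, ψ y ≠ 0 → ‖y - x‖ ≤ K * r
  bd : ∀ y i, |pd i ψ y| ≤ K / r
  rr : ∀ y, |RR ψ y| ≤ K / r ^ 2 * sg y

section

variable {K : ℝ} {x : V} {r : ℝ} {ψ : V → ℝ}

theorem Cf.ts (h : Cf K x r ψ) : tsupport ψ ⊆ closedBall x (K * r) := by
  refine closure_minimal (fun y hy => ?_) isClosed_closedBall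
  rw [mem_closedBall, dist_eq_norm]
  exact h.sp y hy

theorem Cf.cs (h : Cf K x r ψ) : HasCompactSupport ψ :=
  HasCompactSupport.of_support_subset_isCompact (isCompact_closedBall x (K * r))
    ((subset_tsupport ψ).trans h.ts)

theorem Cf.zero (h : Cf K x r ψ) {y : V} (hy : y ∉ closedBall x (K * r)) : ψ y = 0 := by
  by_contra h0
  exact hy (h.ts (subset_tsupport ψ h0))

theorem Cf.pd_zero (h : Cf K x r ψ) {y : V} (hy : y ∉ closedBall x (K * r)) (j : Fin 3) :
    pd j ψ y = 0 :=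
  pd_zero_of (ev_zero fun h0 => hy (h.ts h0)) j

end

theorem nsq_cont {v : V → V} (hv : ContDiff ℝ ∞ v) : Continuous (W221.NS.nsq v) := by
  unfold W221.NS.nsq
  exact continuous_finsetSum _ fun i _ => ((continuous_apply i).comp hv.continuous).pow 2

theorem RR_sq {ψ : V → ℝ} (h : ContDiff ℝ ∞ ψ) (y : V) :
    RR (fun z => ψ z ^ 2) y = 2 * ψ y * RR ψ y := by
  unfold RR
  rw [sq_pd h, sq_pd h]
  ring

theorem point_bd {Kp : ℝ} {x : V} {s : ℝ} {ψ : V → ℝ} (h : Cf Kp x s ψ) (hKp : 0 < Kp)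
    (hs : 0 < s) (v : V → V) (y : V) :
    2 * gr2 ψ y + W221.NS.adv v (fun z => ψ z ^ 2) y - 2 / sg y * RR (fun z => ψ z ^ 2) y ≤
      Kp * W221.NS.nsq v y + (6 * Kp ^ 2 + 7 * Kp) / s ^ 2 := by
  have h1 : gr2 ψ y ≤ 3 * (Kp / s) ^ 2 := by
    unfold gr2
    calc ∑ i, pd i ψ y ^ 2 ≤ ∑ i : Fin 3, (Kp / s) ^ 2 := Finset.sum_le_sum fun i _ => by
          rw [← sq_abs]
          exact pow_le_pow_left₀ (abs_nonneg _) (h.bd y i) 2
      _ = 3 * (Kp / s) ^ 2 := by
          rw [Finset.sum_const, Finset.card_univ, Fintype.card_fin]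
          simp
  have h2 : W221.NS.adv v (fun z => ψ z ^ 2) y ≤ Kp * W221.NS.nsq v y + 3 * Kp / s ^ 2 := by
    unfold W221.NS.adv W221.NS.nsq
    have h3 : ∀ j, v y j * pd j (fun z => ψ z ^ 2) y ≤ Kp * v y j ^ 2 + Kp / s ^ 2 := by
      intro j
      rw [sq_pd h.sm]
      have h4 : v y j * (2 * ψ y * pd j ψ y) ≤ 2 * |v y j| * (Kp / s) := by
        calc v y j * (2 * ψ y * pd j ψ y) ≤ |v y j * (2 * ψ y * pd j ψ y)| := le_abs_self _
          _ = 2 * |v y j| * (ψ y * |pd j ψ y|) := by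
              rw [abs_mul, abs_mul, abs_mul, abs_two, abs_of_nonneg (h.rg y).1]
              ring
          _ ≤ 2 * |v y j| * (1 * (Kp / s)) := by
              refine mul_le_mul_of_nonneg_left ?_ (by positivity)
              exact mul_le_mul (h.rg y).2 (h.bd y j) (abs_nonneg _) zero_le_one
          _ = _ := by ring
      refine h4.trans ?_
      have h5 : 2 * |v y j| * s⁻¹ ≤ |v y j| ^ 2 + s⁻¹ ^ 2 := by
        nlinarith [sq_nonneg (|v y j| - s⁻¹)]
      rw [sq_abs] at h5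
      calc 2 * |v y j| * (Kp / s) = Kp * (2 * |v y j| * s⁻¹) := by
            rw [div_eq_mul_inv]
            ring
        _ ≤ Kp * (v y j ^ 2 + s⁻¹ ^ 2) := mul_le_mul_of_nonneg_left h5 hKp.le
        _ = _ := by
            rw [div_eq_mul_inv, inv_pow]
            ring
    calc ∑ j, v y j * pd j (fun z => ψ z ^ 2) y ≤ ∑ j : Fin 3, (Kp * v y j ^ 2 + Kp / s ^ 2) :=
          Finset.sum_le_sum fun j _ => h3 j
      _ = _ := by
          rw [Finset.sum_add_distrib, ← Finset.mul_sum, Finset.sum_const, Finset.card_univ,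
            Fintype.card_fin, nsmul_eq_mul]
          push_cast
          ring
  have h3 : -(2 / sg y * RR (fun z => ψ z ^ 2) y) ≤ 4 * Kp / s ^ 2 := by
    rw [RR_sq h.sm]
    have hsg : 0 ≤ sg y := by
      unfold sg
      positivity
    rcases hsg.eq_or_lt with h0 | h0
    · rw [← h0, div_zero, zero_mul, neg_zero]
      positivity
    · have h4 : |ψ y * RR ψ y| ≤ Kp / s ^ 2 * sg y := by
        rw [abs_mul, abs_of_nonneg (h.rg y).1]
        calc ψ y * |RR ψ y| ≤ 1 * (Kp / s ^ 2 * sg y) :=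
              mul_le_mul (h.rg y).2 (h.rr y) (abs_nonneg _) zero_le_one
          _ = _ := one_mul _
      have h5 : -(ψ y * RR ψ y) ≤ Kp / s ^ 2 * sg y := (neg_le_abs _).trans h4
      calc -(2 / sg y * (2 * ψ y * RR ψ y)) = 4 / sg y * (-(ψ y * RR ψ y)) := by ring
        _ ≤ 4 / sg y * (Kp / s ^ 2 * sg y) := mul_le_mul_of_nonneg_left h5 (by positivity)
        _ = _ := by
            field_simp
  have h4 : (6 * Kp ^ 2 + 7 * Kp) / s ^ 2 = 2 * (3 * (Kp / s) ^ 2) + 3 * Kp / s ^ 2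
      + 4 * Kp / s ^ 2 := by
    field_simp
    ring
  rw [h4]
  linarith

/-- the bound of the right side at one time -/
theorem fixed {Kp : ℝ} {x : V} {s : ℝ} {ψ : V → ℝ} (h : Cf Kp x s ψ) (hKp : 0 < Kp)
    (hs : 0 < s) (hs1 : s ≤ 1) {v : V → V} (hv : ContDiff ℝ ∞ v) {U W : V → ℝ}
    (hU : Continuous U) (hW : Continuous W) {K E : ℝ} (hK : 0 ≤ K)
    (hWK : ∀ y ∈ closedBall x (Kp * s), |W y| ≤ K)
    (hUK : ∫ y in closedBall x (Kp * s), U y ^ 2 ≤ K)
    (hvE : ∫ y in closedBall x (Kp * s), W221.NS.nsq v y ≤ E) :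
    2 * (∫ y, ψ y ^ 2 * W y * (-2 * U y * W y)) +
      ∫ y, W y ^ 2 * (2 * gr2 ψ y + W221.NS.adv v (fun z => ψ z ^ 2) y
        - 2 / sg y * RR (fun z => ψ z ^ 2) y) ≤
      2 * (K ^ 2 * (K + 8 * Kp ^ 3)) + K ^ 2 * (Kp * E + (6 * Kp ^ 2 + 7 * Kp) * (8 * Kp ^ 3)) := by
  set B := closedBall x (Kp * s) with hB
  have hBm : MeasurableSet B := isClosed_closedBall.measurableSet
  have hBc : IsCompact B := isCompact_closedBall x _
  have hKs : 0 ≤ Kp * s := by positivity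
  have hvol : volume.real B = 8 * (Kp * s) ^ 3 := vol_ball x hKs
  have hs2 : s ^ 2 ≤ 1 := pow_le_one₀ hs.le hs1
  have hs3 : s ^ 3 ≤ 1 := pow_le_one₀ hs.le hs1
  have hconst : ∀ a : ℝ, ∫ y in B, a = 8 * (Kp * s) ^ 3 * a := by
    intro a
    rw [setIntegral_const, hvol, smul_eq_mul]
  have hWsq : ∀ y ∈ B, W y ^ 2 ≤ K ^ 2 := by
    intro y hy
    rw [← sq_abs]
    exact pow_le_pow_left₀ (abs_nonneg _) (hWK y hy) 2
  have hfin : volume B ≠ ⊤ := hBc.measure_lt_top.ne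
  have hci : ∀ a : ℝ, IntegrableOn (fun _ : V => a) B := fun a => integrableOn_const hfin
  -- first term
  have h1 : ∫ y, ψ y ^ 2 * W y * (-2 * U y * W y) ≤ K ^ 2 * (K + 8 * Kp ^ 3) := by
    have hint : IntegrableOn (fun y => K ^ 2 * (U y ^ 2 + 1)) B :=
      (Continuous.continuousOn (by fun_prop)).integrableOn_compact hBc
    calc ∫ y, ψ y ^ 2 * W y * (-2 * U y * W y)
        ≤ ∫ y, B.indicator (fun y => K ^ 2 * (U y ^ 2 + 1)) y := by
          refine int_le (fun y => ?_) (fun y => ?_) (hint.integrable_indicator hBm)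
          · by_cases hy : y ∈ B
            · rw [indicator_of_mem hy]
              have hψ : ψ y ^ 2 ≤ 1 := pow_le_one₀ (h.rg y).1 (h.rg y).2
              have e1 : ψ y ^ 2 * W y * (-2 * U y * W y) = (ψ y ^ 2 * W y ^ 2) * (-2 * U y) := by
                ring
              have e2 : -2 * U y ≤ U y ^ 2 + 1 := by nlinarith [sq_nonneg (U y + 1)]
              have e3 : ψ y ^ 2 * W y ^ 2 ≤ K ^ 2 := by
                calc ψ y ^ 2 * W y ^ 2 ≤ 1 * K ^ 2 :=
                      mul_le_mul hψ (hWsq y hy) (sq_nonneg _) zero_le_one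
                  _ = K ^ 2 := one_mul _
              rw [e1]
              calc (ψ y ^ 2 * W y ^ 2) * (-2 * U y) ≤ (ψ y ^ 2 * W y ^ 2) * (U y ^ 2 + 1) :=
                    mul_le_mul_of_nonneg_left e2 (by positivity)
                _ ≤ K ^ 2 * (U y ^ 2 + 1) := mul_le_mul_of_nonneg_right e3 (by positivity)
            · rw [indicator_of_notMem hy, h.zero hy]
              simp
          · exact indicator_nonneg (fun z _ => by positivity) y
      _ = ∫ y in B, K ^ 2 * (U y ^ 2 + 1) := integral_indicator hBm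
      _ = K ^ 2 * (∫ y in B, U y ^ 2) + K ^ 2 * (8 * (Kp * s) ^ 3 * 1) := by
          rw [integral_const_mul, integral_add
            ((Continuous.continuousOn (by fun_prop)).integrableOn_compact hBc) (hci 1),
            hconst 1, mul_add]
      _ ≤ K ^ 2 * K + K ^ 2 * (8 * (Kp ^ 3 * 1) * 1) := by
          have h2 : (Kp * s) ^ 3 ≤ Kp ^ 3 * 1 := by
            rw [mul_pow]
            exact mul_le_mul_of_nonneg_left hs3 (by positivity)
          gcongr
      _ = _ := by ring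
  have h2 : ∫ y, W y ^ 2 * (2 * gr2 ψ y + W221.NS.adv v (fun z => ψ z ^ 2) y
        - 2 / sg y * RR (fun z => ψ z ^ 2) y) ≤
      K ^ 2 * (Kp * E + (6 * Kp ^ 2 + 7 * Kp) * (8 * Kp ^ 3)) := by
    have hnc := nsq_cont hv
    have hnn : ∀ y, 0 ≤ W221.NS.nsq v y := fun y => Finset.sum_nonneg fun i _ => sq_nonneg _
    have hint : IntegrableOn (fun y => K ^ 2 * (Kp * W221.NS.nsq v y
        + (6 * Kp ^ 2 + 7 * Kp) / s ^ 2)) B :=
      (Continuous.continuousOn (by fun_prop)).integrableOn_compact hBc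
    calc _ ≤ ∫ y, B.indicator (fun y => K ^ 2 * (Kp * W221.NS.nsq v y
        + (6 * Kp ^ 2 + 7 * Kp) / s ^ 2)) y := by
          refine int_le (fun y => ?_) (fun y => ?_) (hint.integrable_indicator hBm)
          · by_cases hy : y ∈ B
            · rw [indicator_of_mem hy]
              have e1 := point_bd h hKp hs v y
              have e2 : 0 ≤ Kp * W221.NS.nsq v y + (6 * Kp ^ 2 + 7 * Kp) / s ^ 2 := by
                have := hnn y
                positivity
              calc _ ≤ W y ^ 2 * (Kp * W221.NS.nsq v y + (6 * Kp ^ 2 + 7 * Kp) / s ^ 2) :=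
                    mul_le_mul_of_nonneg_left e1 (sq_nonneg _)
                _ ≤ _ := mul_le_mul_of_nonneg_right (hWsq y hy) e2
            · rw [indicator_of_notMem hy]
              have e1 : gr2 ψ y = 0 := by
                unfold gr2
                refine Finset.sum_eq_zero fun i _ => ?_
                rw [h.pd_zero hy]
                ring
              have e2 : W221.NS.adv v (fun z => ψ z ^ 2) y = 0 := by
                unfold W221.NS.adv
                refine Finset.sum_eq_zero fun i _ => ?_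
                rw [sq_pd h.sm, h.pd_zero hy]
                ring
              have e3 : RR (fun z => ψ z ^ 2) y = 0 := by
                rw [RR_sq h.sm, h.zero hy]
                ring
              rw [e1, e2, e3]
              simp
          · refine indicator_nonneg (fun z _ => ?_) y
            have := hnn z
            positivity
      _ = ∫ y in B, K ^ 2 * (Kp * W221.NS.nsq v y + (6 * Kp ^ 2 + 7 * Kp) / s ^ 2) :=
          integral_indicator hBm
      _ = K ^ 2 * (Kp * (∫ y in B, W221.NS.nsq v y)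
            + 8 * (Kp * s) ^ 3 * ((6 * Kp ^ 2 + 7 * Kp) / s ^ 2)) := by
          rw [integral_const_mul, integral_add
            ((Continuous.continuousOn (by fun_prop)).integrableOn_compact hBc) (hci _),
            hconst, integral_const_mul]
      _ = K ^ 2 * (Kp * (∫ y in B, W221.NS.nsq v y)
            + (6 * Kp ^ 2 + 7 * Kp) * (8 * Kp ^ 3) * s) := by
          field_simp
      _ ≤ K ^ 2 * (Kp * E + (6 * Kp ^ 2 + 7 * Kp) * (8 * Kp ^ 3) * 1) := by
          gcongr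
      _ = _ := by ring
  linarith

/-- the energy -/
theorem en_bd {Kp : ℝ} {x : V} {s : ℝ} {ψ : V → ℝ} (h : Cf Kp x s ψ) (hKp : 0 < Kp)
    (hs : 0 < s) (hs1 : s ≤ 1) {W : V → ℝ} {K : ℝ} (hK : 0 ≤ K)
    (hWK : ∀ y ∈ closedBall x (Kp * s), |W y| ≤ K) :
    ∫ y, ψ y ^ 2 * W y ^ 2 ≤ 8 * Kp ^ 3 * K ^ 2 * s ^ 2 := by
  set B := closedBall x (Kp * s) with hB
  have hBm : MeasurableSet B := isClosed_closedBall.measurableSet
  have hBc : IsCompact B := isCompact_closedBall x _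
  have hKs : 0 ≤ Kp * s := by positivity
  have hvol : volume.real B = 8 * (Kp * s) ^ 3 := vol_ball x hKs
  have hfin : volume B ≠ ⊤ := hBc.measure_lt_top.ne
  calc ∫ y, ψ y ^ 2 * W y ^ 2 ≤ ∫ y, B.indicator (fun _ => K ^ 2) y := by
        refine int_le (fun y => ?_) (fun y => ?_)
          ((integrableOn_const hfin).integrable_indicator hBm)
        · by_cases hy : y ∈ B
          · rw [indicator_of_mem hy]
            have hψ : ψ y ^ 2 ≤ 1 := pow_le_one₀ (h.rg y).1 (h.rg y).2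
            have hW2 : W y ^ 2 ≤ K ^ 2 := by
              rw [← sq_abs]
              exact pow_le_pow_left₀ (abs_nonneg _) (hWK y hy) 2
            calc ψ y ^ 2 * W y ^ 2 ≤ 1 * K ^ 2 := mul_le_mul hψ hW2 (sq_nonneg _) zero_le_one
              _ = K ^ 2 := one_mul _
          · rw [indicator_of_notMem hy, h.zero hy]
            simp
        · exact indicator_nonneg (fun z _ => by positivity) y
    _ = ∫ y in B, K ^ 2 := integral_indicator hBm
    _ = 8 * (Kp * s) ^ 3 * K ^ 2 := by rw [setIntegral_const, hvol, smul_eq_mul]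
    _ = 8 * Kp ^ 3 * K ^ 2 * (s ^ 2 * s) := by ring
    _ ≤ 8 * Kp ^ 3 * K ^ 2 * (s ^ 2 * 1) := by gcongr
    _ = _ := by ring

theorem ae_sg : ∀ᵐ x : V, sg x ≠ 0 := by
  rw [ae_iff]
  refine measure_mono_null (t := {x : V | x 0 = 0}) (fun x hx => ?_) ?_
  · have h : x 0 ^ 2 + x 1 ^ 2 = 0 := by
      by_contra h0
      exact hx h0
    have : x 0 ^ 2 = 0 := by nlinarith [sq_nonneg (x 0), sq_nonneg (x 1)]
    exact pow_eq_zero_iff two_ne_zero |>.1 this
  · exact Measure.pi_hyperplane (fun _ : Fin 3 => (volume : Measure ℝ)) 0 0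

/-- the energy inequality -/
theorem en_le (hAlg : StmAlg) (hJnt : StmJnt) (hDt : StmDt) (hEn : Pool.Agent.Q67.AXI.StmEn) (hEqW : StmEqW)
    {T E c R H : ℝ} {u : ℝ → V → V} {p : ℝ → V → ℝ} (hsol : AxL T E c R H u p)
    {ψ : V → ℝ} (hψ : ContDiff ℝ ∞ ψ) (hψc : HasCompactSupport ψ)
    (hψs : tsupport ψ ⊆ Co c R H) {τ : ℝ} (hτ : τ ∈ Ioo 0 T) :
    ∃ D : ℝ, HasDerivAt (fun s => ∫ x, ψ x ^ 2 * WW (u s) x ^ 2) D τ ∧
      D ≤ -2 * GD (fun x => ψ x * WW (u τ) x) +
        (2 * (∫ x, ψ x ^ 2 * WW (u τ) x * (-2 * UU (u τ) x * WW (u τ) x)) +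
        ∫ x, WW (u τ) x ^ 2 * (2 * gr2 ψ x + W221.NS.adv (u τ) (fun y => ψ y ^ 2) x
          - 2 / sg x * RR (fun y => ψ y ^ 2) x)) := by
  have hu := sm_slice hsol.smooth_u hτ
  have hax := hsol.axi τ hτ
  obtain ⟨⟨hUs, hWs, -, -⟩, -⟩ := hAlg (u τ) hu hax
  obtain ⟨-, hJW, -, -⟩ := hJnt T u hsol.smooth_u
  obtain ⟨-, hD⟩ := hDt T (fun t => WW (u t)) ψ hJW hψ hψc
  refine ⟨_, hD τ hτ, ?_⟩
  have hSs : ContDiff ℝ ∞ (fun x => -2 * UU (u τ) x * WW (u τ) x) :=
    (contDiff_const.mul hUs).mul hWs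
  obtain ⟨-, -, h3⟩ := hEn (Co c R H) (u τ) (WW (u τ)) (fun x => -2 * UU (u τ) x * WW (u τ) x) ψ
    hsol.openO hu (hsol.divfree τ hτ) hWs hSs hψ hψc hψs
  have h4 : (∫ x, 2 * ψ x ^ 2 * WW (u τ) x * deriv (fun s => WW (u s) x) τ) =
      ∫ x, 2 * ψ x ^ 2 * WW (u τ) x * (LL (WW (u τ)) x - W221.NS.adv (u τ) (WW (u τ)) x
        + -2 * UU (u τ) x * WW (u τ) x) := by
    refine integral_congr_ae ?_
    filter_upwards [ae_sg] with x hx
    by_cases h0 : ψ x = 0
    · simp only [h0]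
      ring
    · have hxC : x ∈ Co c R H := hψs (subset_tsupport ψ h0)
      have h5 := (hEqW T E c R H u p hsol τ hτ x hxC hx).deriv
      rw [h5]
      ring
  calc _ = _ := h4
    _ ≤ _ := h3
    _ = _ := by ring

theorem cac : StmPsi → StmAlg → StmJnt → StmDt → Pool.Agent.Q67.AXI.StmEn → StmEqW → StmCac := by
  intro hPsi hAlg hJnt hDt hEn hEqW T E c R H r h T₁ K u p hsol hr hrR hh hhH hT₁ hT₁T hK hbd
  obtain ⟨Kp, hKp, hψ⟩ := hPsi
  -- the radius
  obtain ⟨ρ, hρ0, hρ1, hρr, hρh, hρT⟩ : ∃ ρ : ℝ, 0 < ρ ∧ ρ ≤ 1 ∧ (1 + Kp) * ρ ≤ r / 2 ∧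
      (1 + Kp) * ρ ≤ h ∧ ρ ≤ (T - T₁) / 4 := by
    have hp : 0 < 1 + Kp := by linarith
    refine ⟨min (min 1 ((T - T₁) / 4)) (min (r / 2) h / (1 + Kp)), ?_, ?_, ?_, ?_, ?_⟩
    · refine lt_min (lt_min one_pos (by linarith)) (div_pos (lt_min (by linarith) hh) hp)
    · exact (min_le_left _ _).trans (min_le_left _ _)
    · have h1 : (1 + Kp) * min (min 1 ((T - T₁) / 4)) (min (r / 2) h / (1 + Kp)) ≤
          (1 + Kp) * (min (r / 2) h / (1 + Kp)) :=
        mul_le_mul_of_nonneg_left (min_le_right _ _) hp.le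
      rw [mul_div_cancel₀ _ hp.ne'] at h1
      exact h1.trans (min_le_left _ _)
    · have h1 : (1 + Kp) * min (min 1 ((T - T₁) / 4)) (min (r / 2) h / (1 + Kp)) ≤
          (1 + Kp) * (min (r / 2) h / (1 + Kp)) :=
        mul_le_mul_of_nonneg_left (min_le_right _ _) hp.le
      rw [mul_div_cancel₀ _ hp.ne'] at h1
      exact h1.trans (min_le_right _ _)
    · exact (min_le_left _ _).trans (min_le_right _ _)
  set C1 : ℝ := 2 * (K ^ 2 * (K + 8 * Kp ^ 3))
    + K ^ 2 * (Kp * E + (6 * Kp ^ 2 + 7 * Kp) * (8 * Kp ^ 3)) with hC1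
  have hnn : ∀ (v : V → V) y, 0 ≤ W221.NS.nsq v y := fun v y =>
    Finset.sum_nonneg fun i _ => sq_nonneg _
  have hTT : (T₁ + T) / 2 ∈ Ioo 0 T := ⟨by linarith, by linarith⟩
  have hE : 0 ≤ E := (integral_nonneg (fun y => hnn _ y)).trans (hsol.en _ hTT)
  have hC10 : 0 ≤ C1 := by positivity
  refine ⟨C1 + 8 * Kp ^ 3 * K ^ 2, ρ, (T₁ + T) / 2, by positivity, hρ0, by linarith,
    by linarith, fun t ht x hx s hs => ?_⟩
  have hs0 : 0 < s := hs.1
  have hs1 : s ≤ 1 := hs.2.trans hρ1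
  obtain ⟨ψ, k1, k2, k3, k4, k5, k6⟩ := hψ x s hs0
  have hc : Cf Kp x s ψ := ⟨k1, k2, k3, k4, k5, k6⟩
  -- the ball
  have hball : closedBall x (Kp * s) ⊆ Cy c r h := by
    intro y hy
    rw [mem_closedBall, dist_eq_norm] at hy
    have h1 : ‖y - ![0, 0, c]‖ ≤ (1 + Kp) * ρ := by
      calc ‖y - ![0, 0, c]‖ = ‖(y - x) + (x - ![0, 0, c])‖ := by rw [sub_add_sub_cancel]
        _ ≤ ‖y - x‖ + ‖x - ![0, 0, c]‖ := norm_add_le _ _
        _ ≤ Kp * s + ρ := add_le_add hy hx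
        _ ≤ Kp * ρ + ρ := by
            have := mul_le_mul_of_nonneg_left hs.2 hKp.le
            linarith
        _ = (1 + Kp) * ρ := by ring
    have h2 : ∀ i, |(y - ![0, 0, c]) i| ≤ (1 + Kp) * ρ := fun i => by
      have := norm_le_pi_norm (y - ![0, 0, c]) i
      rw [Real.norm_eq_abs] at this
      exact this.trans h1
    have a0 := h2 0
    have a1 := h2 1
    have a2 := h2 2
    simp only [Pi.sub_apply, Matrix.cons_val_zero, Matrix.cons_val_one, Matrix.cons_val,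
      sub_zero] at a0 a1 a2
    refine ⟨?_, a2.trans hρh⟩
    unfold sg
    have b0 := a0.trans hρr
    have b1 := a1.trans hρr
    have c0 : y 0 ^ 2 ≤ (r / 2) ^ 2 := by
      rw [← sq_abs]
      exact pow_le_pow_left₀ (abs_nonneg _) b0 2
    have c1 : y 1 ^ 2 ≤ (r / 2) ^ 2 := by
      rw [← sq_abs]
      exact pow_le_pow_left₀ (abs_nonneg _) b1 2
    nlinarith
  have hCC : Cy c r h ⊆ Co c R H := by
    rintro y ⟨h1, h2⟩
    refine ⟨h1.trans_lt ?_, h2.trans_lt hhH⟩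
    exact pow_lt_pow_left₀ hrR hr.le two_ne_zero
  have hts : tsupport ψ ⊆ Co c R H := hc.ts.trans (hball.trans hCC)
  -- times
  have hs2 : s ^ 2 ≤ (T - T₁) / 4 := by
    have h1 : s ^ 2 ≤ s := by nlinarith
    linarith [hs.2]
  have hs20 : 0 < s ^ 2 := by positivity
  have ht1 : T₁ < t - s ^ 2 := by
    have := ht.1
    linarith
  have htI : ∀ τ ∈ Icc (t - s ^ 2) t, τ ∈ Ioo 0 T ∧ τ ∈ Ico T₁ T := by
    intro τ hτ
    have := ht.2
    exact ⟨⟨by linarith [hτ.1], by linarith [hτ.2]⟩, ⟨by linarith [hτ.1], by linarith [hτ.2]⟩⟩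
  -- bounds at the time `τ`
  have hsm : ∀ τ ∈ Ioo 0 T, ContDiff ℝ ∞ (UU (u τ)) ∧ ContDiff ℝ ∞ (WW (u τ)) := by
    intro τ hτ
    obtain ⟨⟨hUs, hWs, -, -⟩, -⟩ := hAlg (u τ) (sm_slice hsol.smooth_u hτ) (hsol.axi τ hτ)
    exact ⟨hUs, hWs⟩
  have hCyc : IsCompact (Cy c r h) := by
    refine Metric.isCompact_of_isClosed_isBounded ?_ ?_
    · have k1 : IsClosed {x : V | sg x ≤ r ^ 2} :=
        isClosed_le (by unfold sg; fun_prop) continuous_const
      have k2 : IsClosed {x : V | |x 2 - c| ≤ h} := isClosed_le (by fun_prop) continuous_const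
      exact k1.inter k2
    · refine (isBounded_closedBall (x := (0 : V)) (r := max r (|c| + h))).subset ?_
      rintro y ⟨h1, h2⟩
      rw [mem_closedBall, dist_zero_right, pi_norm_le_iff_of_nonneg (le_max_of_le_left hr.le)]
      unfold sg at h1
      intro i
      rw [Real.norm_eq_abs]
      fin_cases i
      · refine le_max_of_le_left (abs_le_of_sq_le_sq ?_ hr.le)
        change y 0 ^ 2 ≤ r ^ 2
        nlinarith [sq_nonneg (y 1)]
      · refine le_max_of_le_left (abs_le_of_sq_le_sq ?_ hr.le)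
        change y 1 ^ 2 ≤ r ^ 2
        nlinarith [sq_nonneg (y 0)]
      · refine le_max_of_le_right ?_
        change |y 2| ≤ |c| + h
        calc |y 2| = |c + (y 2 - c)| := by rw [add_sub_cancel]
          _ ≤ |c| + |y 2 - c| := abs_add_le _ _
          _ ≤ |c| + h := by linarith
  have hrhs : ∀ τ ∈ Icc (t - s ^ 2) t,
      2 * (∫ x, ψ x ^ 2 * WW (u τ) x * (-2 * UU (u τ) x * WW (u τ) x)) +
        ∫ x, WW (u τ) x ^ 2 * (2 * gr2 ψ x + W221.NS.adv (u τ) (fun y => ψ y ^ 2) x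
          - 2 / sg x * RR (fun y => ψ y ^ 2) x) ≤ C1 := by
    intro τ hτ
    obtain ⟨hτ0, hτ1⟩ := htI τ hτ
    obtain ⟨hUs, hWs⟩ := hsm τ hτ0
    obtain ⟨hb1, hb2⟩ := hbd τ hτ1
    refine fixed hc hKp hs0 hs1 (sm_slice hsol.smooth_u hτ0) hUs.continuous hWs.continuous hK
      (fun y hy => hb1 y (hball hy)) ?_ ?_
    · refine (setIntegral_mono_set ?_ (ae_of_all _ fun y => sq_nonneg _)
        (LE.le.eventuallyLE hball)).trans hb2
      exact (hUs.continuous.pow 2).continuousOn.integrableOn_compact hCyc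
    · exact (setIntegral_mono_set (hsol.en_int τ hτ0) (ae_of_all _ fun y => hnn _ y)
        (LE.le.eventuallyLE (hball.trans hCC))).trans (hsol.en τ hτ0)
  have hen : ∀ τ ∈ Icc (t - s ^ 2) t,
      ∫ y, ψ y ^ 2 * WW (u τ) y ^ 2 ≤ 8 * Kp ^ 3 * K ^ 2 * s ^ 2 := by
    intro τ hτ
    obtain ⟨hτ0, hτ1⟩ := htI τ hτ
    exact en_bd hc hKp hs0 hs1 hK fun y hy => (hbd τ hτ1).1 y (hball hy)
  -- the derivative
  choose! D hD1 hD2 using fun τ (hτ : τ ∈ Ioo 0 T) =>
    en_le hAlg hJnt hDt hEn hEqW hsol k1 hc.cs hts hτ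
  obtain ⟨-, hJW, -, -⟩ := hJnt T u hsol.smooth_u
  obtain ⟨hGc, -⟩ := hDt T (fun t => WW (u t)) ψ hJW k1 hc.cs
  set G : ℝ → ℝ := fun τ => GD (fun x => ψ x * WW (u τ) x) with hG
  have hG0 : ∀ τ, 0 ≤ G τ := fun τ => integral_nonneg fun y => gr2_nonneg _ y
  have hGi : ∀ τ ∈ Icc (t - s ^ 2) t, IntervalIntegrable G volume (t - s ^ 2) τ := by
    intro τ hτ
    refine ContinuousOn.intervalIntegrable (hGc.mono ?_)
    rw [uIcc_of_le hτ.1]
    exact fun z hz => (htI z ⟨hz.1, hz.2.trans hτ.2⟩).1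
  have hGd : ∀ τ ∈ Icc (t - s ^ 2) t, HasDerivAt (fun z => ∫ y in (t - s ^ 2)..z, G y) (G τ) τ := by
    intro τ hτ
    have h0 := (htI τ hτ).1
    exact intervalIntegral.integral_hasDerivAt_right (hGi τ hτ)
      (ContinuousOn.stronglyMeasurableAtFilter isOpen_Ioo hGc τ h0)
      (hGc.continuousAt (isOpen_Ioo.mem_nhds h0))
  set F : ℝ → ℝ := fun τ => (∫ y, ψ y ^ 2 * WW (u τ) y ^ 2) + 2 * (∫ y in (t - s ^ 2)..τ, G y)
    - C1 * τ with hF
  have hFd : ∀ τ ∈ Icc (t - s ^ 2) t, HasDerivAt F (D τ + 2 * G τ - C1) τ := by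
    intro τ hτ
    have h1 := ((hD1 τ (htI τ hτ).1).add ((hGd τ hτ).const_mul 2)).sub
      ((hasDerivAt_id τ).const_mul C1)
    rw [mul_one] at h1
    exact h1
  have hanti : AntitoneOn F (Icc (t - s ^ 2) t) := by
    refine antitoneOn_of_hasDerivWithinAt_nonpos (convex_Icc _ _)
      (fun τ hτ => (hFd τ hτ).continuousAt.continuousWithinAt)
      (fun τ hτ => (hFd τ (interior_subset hτ)).hasDerivWithinAt) fun τ hτ => ?_
    have hτ' := interior_subset hτ
    have h1 := hD2 τ (htI τ hτ').1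
    have h2 := hrhs τ hτ'
    have h3 : D τ ≤ -2 * G τ + C1 := by
      refine h1.trans ?_
      linarith
    linarith
  have hle : t - s ^ 2 ≤ t := by linarith
  have hFF := hanti (left_mem_Icc.2 hle) (right_mem_Icc.2 hle) hle
  have hint : 2 * (∫ y in (t - s ^ 2)..t, G y) ≤ 8 * Kp ^ 3 * K ^ 2 * s ^ 2 + C1 * s ^ 2 := by
    have h1 : F (t - s ^ 2) = (∫ y, ψ y ^ 2 * WW (u (t - s ^ 2)) y ^ 2) - C1 * (t - s ^ 2) := by
      simp only [hF, intervalIntegral.integral_same]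
      ring
    have h2 := hen (t - s ^ 2) (left_mem_Icc.2 hle)
    have h3 : 0 ≤ ∫ y, ψ y ^ 2 * WW (u t) y ^ 2 := integral_nonneg fun y => by positivity
    rw [h1] at hFF
    simp only [hF] at hFF
    nlinarith
  -- the comparison of the integrals
  have hGt := hGi t (right_mem_Icc.2 hle)
  have hcmp : ∫ τ in Ioo (t - s ^ 2) t, ∫ y in ball x s, gr2 (WW (u τ)) y ≤
      ∫ τ in Ioo (t - s ^ 2) t, G τ := by
    refine integral_mono_of_nonneg (ae_of_all _ fun τ => ?_) ?_ ?_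
    · exact integral_nonneg fun y => gr2_nonneg _ y
    · have h1 := (intervalIntegrable_iff_integrableOn_Ioo_of_le hle).1 hGt
      exact h1
    · refine (ae_restrict_iff' measurableSet_Ioo).2 (ae_of_all _ fun τ hτ => ?_)
      have hτ' := htI τ ⟨hτ.1.le, hτ.2.le⟩
      obtain ⟨-, hWs⟩ := hsm τ hτ'.1
      have h1 : ∫ y in ball x s, gr2 (WW (u τ)) y =
          ∫ y in ball x s, gr2 (fun z => ψ z * WW (u τ) z) y := by
        refine setIntegral_congr_fun measurableSet_ball fun y hy => ?_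
        unfold gr2
        refine Finset.sum_congr rfl fun i _ => ?_
        have h2 : (fun z => ψ z * WW (u τ) z) =ᶠ[𝓝 y] WW (u τ) := by
          filter_upwards [isOpen_ball.mem_nhds hy] with z hz
          rw [hc.one z (ball_subset_closedBall hz), one_mul]
        rw [pd_congr h2 i]
      change ∫ y in ball x s, gr2 (WW (u τ)) y ≤ GD (fun x => ψ x * WW (u τ) x)
      rw [h1]
      unfold GD
      exact setIntegral_le_integral (gr2_int (k1.mul hWs) hc.cs.mul_right)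
        (ae_of_all _ fun y => gr2_nonneg _ y)
  have hG1 : ∫ τ in Ioo (t - s ^ 2) t, G τ = ∫ y in (t - s ^ 2)..t, G y := by
    rw [intervalIntegral.integral_of_le hle, integral_Ioc_eq_integral_Ioo]
  rw [hG1] at hcmp
  have h5 : 0 ≤ (8 * Kp ^ 3 * K ^ 2 + C1) * s ^ 2 := by positivity
  nlinarith

end Pool.Agent.Q111.AXI
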